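import Mathlib
import Pool.Agent.W2helper1.SD.Desc

set_option autoImplicit false

/-!
# Degrees of the primitive elements of the Selberg class

The starting result `EveryLargeDegree` gives products of two Euler products of every large real degree.
Here the question is answered for the primitive elements, the building blocks of the Selberg class: for
every real `x > 0` infinitely many rational multiples of `x` below an absolute bound are degrees of
primitive elements.  So the set of these degrees meets every class of `ℝ_{>0}/ℚ_{>0}`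
infinitely often, contains a basis of `ℝ` over `ℚ`, and is not a null set.

Proof.  (1) If `F = F₁ F₂` in the Selberg class, then every pole of the gamma factor of `F₁` is a pole of
the gamma factor of `F` (divide the functional equations).  So if all the numbers `λ_j` in some functional
equation of `F` are rational multiples of `x`, this holds for `F₁`: a progression of poles of the gamma
factor of `F₁` has two members in one of the progressions of `F`.  (2) For `m ≥ m₀` and `2m + 1 < λ ≤ 2m + 2`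
there is an element with the single gamma factor `Γ(λ s + ν)` (starting library, `Y532/SC`).  Its
primitive factors have degrees in `ℚ λ`, and the sum of their degrees is `2 λ` (degrees are additive, and
there are no degrees between `0` and `1`: starting library, `H336R4/PF`).  (3) For `λ ∈ ℚ x` the numbers
`2 λ` in a bounded interval are infinitely many, so they are not sums of finitely many numbers `≥ 1`.
-/

open MeasureTheory

namespace Pool.Agent.Results.MP_0bb3d8_nt.PrimitiveDegrees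

/-- The Dirichlet series `F` with the coefficients `a` is an element of the Selberg class, and it has a
functional equation with `2 ∑ λ_j = d`, that is, its degree is `d`.  Here `G(s) = (s - 1)^m F(s)`. -/
structure InSelberg (a : ℕ → ℂ) (d : ℝ) : Prop where
  one : a 1 = 1
  ramanujan : ∀ ε : ℝ, 0 < ε → ∃ C : ℝ, ∀ n : ℕ, 1 ≤ n → ‖a n‖ ≤ C * (n : ℝ) ^ ε
  analytic : ∃ (m : ℕ) (G : ℂ → ℂ), Differentiable ℂ G ∧
    (∃ ρ C : ℝ, ∀ z : ℂ, ‖G z‖ ≤ C * Real.exp (‖z‖ ^ ρ)) ∧
    (∀ s : ℂ, 1 < s.re → G s = (s - 1) ^ m * LSeries a s) ∧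
    ∃ (Q : ℝ) (k : ℕ) (lam : Fin k → ℝ) (μ : Fin k → ℂ) (ω : ℂ), 0 < Q ∧
      (∀ j, 0 < lam j) ∧ (∀ j, 0 ≤ (μ j).re) ∧ ‖ω‖ = 1 ∧
      (∀ s : ℂ, 0 < s.re → s.re < 1 →
        (Q : ℂ) ^ s * (∏ j, Complex.Gamma ((lam j : ℂ) * s + μ j)) * (G s / (s - 1) ^ m) =
        ω * starRingEnd ℂ ((Q : ℂ) ^ (1 - starRingEnd ℂ s)
          * (∏ j, Complex.Gamma ((lam j : ℂ) * (1 - starRingEnd ℂ s) + μ j))
          * (G (1 - starRingEnd ℂ s) / ((1 - starRingEnd ℂ s) - 1) ^ m))) ∧
      d = 2 * ∑ j, lam j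
  euler : ∃ b : ℕ → ℂ, (∀ n : ℕ, ¬ IsPrimePow n → b n = 0) ∧
    ∃ θ : ℝ, θ < 1 / 2 ∧ ∃ C : ℝ, (∀ n : ℕ, 1 ≤ n → ‖b n‖ ≤ C * (n : ℝ) ^ θ) ∧
    ∀ s : ℂ, 1 < s.re → LSeries a s = Complex.exp (LSeries b s)

/-- `F` is a primitive element of the Selberg class: it is not the constant `1`, and if it is the product
of two elements then one of them is the constant `1`. -/
def IsPrimitive (a : ℕ → ℂ) : Prop :=
  (∃ d, InSelberg a d) ∧ (∃ n : ℕ, 2 ≤ n ∧ a n ≠ 0) ∧
  ∀ f g : ℕ → ℂ, (∃ d, InSelberg f d) → (∃ d, InSelberg g d) →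
    (∀ s : ℂ, 1 < s.re → LSeries a s = LSeries f s * LSeries g s) →
    (∀ n : ℕ, 2 ≤ n → f n = 0) ∨ (∀ n : ℕ, 2 ≤ n → g n = 0)

open Pool.Agent.H336R4.PF in
theorem iff_cls (a : ℕ → ℂ) (d : ℝ) : InSelberg a d ↔ Cls a d := by
  constructor
  · rintro ⟨h1, h2, ⟨m, G, g1, g2, g3, Q, k, lam, μ, ω, hQ, h4, h5, h6, h7, h8⟩, h9⟩
    exact ⟨h1, h2, ⟨m, G, ⟨g1, g2, g3⟩, Q, k, lam, μ, ω, hQ, ⟨h4, h5, h6, h7⟩, h8⟩, h9⟩
  · rintro ⟨h1, h2, ⟨m, G, ⟨g1, g2, g3⟩, Q, k, lam, μ, ω, hQ, ⟨h4, h5, h6, h7⟩, h8⟩, h9⟩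
    exact ⟨h1, h2, ⟨m, G, g1, g2, g3, Q, k, lam, μ, ω, hQ, h4, h5, h6, h7, h8⟩, h9⟩

open Pool.Agent.H336R4.PF in
theorem iff_ss (a : ℕ → ℂ) : (∃ d, InSelberg a d) ↔ SS a := by
  constructor
  · rintro ⟨d, h⟩
    exact Pool.Agent.H177R3.PFV.cls_ss ((iff_cls a d).1 h)
  · intro h
    obtain ⟨d, hd⟩ := Pool.Agent.H177R3.PFV.ss_cls h
    exact ⟨d, (iff_cls a d).2 hd⟩

open Pool.Agent.H336R4.PF in
theorem iff_prim (a : ℕ → ℂ) : IsPrimitive a ↔ Prim a := by
  unfold IsPrimitive Prim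
  simp only [iff_ss]

/-- There is `B` such that for every `x > 0` infinitely many rational multiples of `x` below `B` are
degrees of primitive elements of the Selberg class.  So the set of the degrees of the primitive elements
contains a basis of `ℝ` over `ℚ`, and it is not a null set. -/
theorem result :
    (∃ B : ℝ, ∀ x : ℝ, 0 < x →
      {q : ℚ | (q : ℝ) * x ≤ B ∧ ∃ a : ℕ → ℂ, IsPrimitive a ∧ InSelberg a (q * x)}.Infinite) ∧
    (∃ (ι : Type) (v : Module.Basis ι ℚ ℝ), ∀ i, ∃ a : ℕ → ℂ, IsPrimitive a ∧ InSelberg a (v i)) ∧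
    volume {d : ℝ | ∃ a : ℕ → ℂ, IsPrimitive a ∧ InSelberg a d} ≠ 0 := by
  simp only [iff_prim, iff_cls]
  exact ⟨Pool.Agent.W2helper1.SD.classes, Pool.Agent.W2helper1.SD.basis,
    Pool.Agent.W2helper1.SD.not_null⟩

end Pool.Agent.Results.MP_0bb3d8_nt.PrimitiveDegrees
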